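import Pool.Agent.NNr.R13_1_2_3.D0
import Pool.Agent.NNe.Slots

set_option linter.all false
set_option maxRecDepth 1000000
namespace Pool.Agent.NNr.R13_1_2_3

open Pool.Agent.NNe

def wf0_0 : wfC (nat_lit 61) (nat_lit 5) C0_0 = true := by decide +kernel
def pl0_0 : plCk (nat_lit 61) (nat_lit 5) (nat_lit 13) (nat_lit 0) (nat_lit 1) (nat_lit 6) (nat_lit 26) (nat_lit 4) (nat_lit 0) nl0 CL0 = true := by decide +kernel
def st0_0_0 : starCk (nat_lit 61) (nat_lit 5) (nat_lit 1) (nat_lit 2) (nat_lit 16) (nat_lit 0) (nat_lit 256) C0_0 = true := by decide +kernel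
def sc0_0 : stCov (nat_lit 2) (nat_lit 0) (Rl.cons (nat_lit 0) (nat_lit 16) Rl.nil) C0_0 = true := by decide +kernel
def wf0_1 : wfC (nat_lit 61) (nat_lit 5) C0_1 = true := by decide +kernel
def pl0_1 : plCk (nat_lit 61) (nat_lit 5) (nat_lit 13) (nat_lit 0) (nat_lit 1) (nat_lit 6) (nat_lit 26) (nat_lit 4) (nat_lit 1) nl0 CL0 = true := by decide +kernel
def st0_1_0 : starCk (nat_lit 61) (nat_lit 5) (nat_lit 1) (nat_lit 2) (nat_lit 29) (nat_lit 52) (nat_lit 256) C0_1 = true := by decide +kernel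
def sc0_1 : stCov (nat_lit 2) (nat_lit 52) (Rl.cons (nat_lit 52) (nat_lit 29) Rl.nil) C0_1 = true := by decide +kernel
def wf0_2 : wfC (nat_lit 61) (nat_lit 5) C0_2 = true := by decide +kernel
def pl0_2 : plCk (nat_lit 61) (nat_lit 5) (nat_lit 13) (nat_lit 0) (nat_lit 1) (nat_lit 6) (nat_lit 26) (nat_lit 4) (nat_lit 2) nl0 CL0 = true := by decide +kernel
def st0_2_0 : starCk (nat_lit 61) (nat_lit 5) (nat_lit 1) (nat_lit 2) (nat_lit 19) (nat_lit 0) (nat_lit 16) C0_2 = true := by decide +kernel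
def sc0_2 : stCov (nat_lit 1) (nat_lit 0) (Rl.cons (nat_lit 0) (nat_lit 19) Rl.nil) C0_2 = true := by decide +kernel
def wf0_3 : wfC (nat_lit 61) (nat_lit 5) C0_3 = true := by decide +kernel
def pl0_3 : plCk (nat_lit 61) (nat_lit 5) (nat_lit 13) (nat_lit 0) (nat_lit 1) (nat_lit 6) (nat_lit 26) (nat_lit 4) (nat_lit 3) nl0 CL0 = true := by decide +kernel
def st0_3_0 : starCk (nat_lit 61) (nat_lit 5) (nat_lit 1) (nat_lit 2) (nat_lit 22) (nat_lit 27) (nat_lit 1) C0_3 = true := by decide +kernel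
def sc0_3 : stCov (nat_lit 0) (nat_lit 27) (Rl.cons (nat_lit 27) (nat_lit 22) Rl.nil) C0_3 = true := by decide +kernel
def wf0_4 : wfC (nat_lit 61) (nat_lit 5) C0_4 = true := by decide +kernel
def pl0_4 : plCk (nat_lit 61) (nat_lit 5) (nat_lit 13) (nat_lit 0) (nat_lit 1) (nat_lit 6) (nat_lit 26) (nat_lit 4) (nat_lit 4) nl0 CL0 = true := by decide +kernel
def st0_4_0 : starCk (nat_lit 61) (nat_lit 5) (nat_lit 1) (nat_lit 2) (nat_lit 21) (nat_lit 122) (nat_lit 256) C0_4 = true := by decide +kernel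
def sc0_4 : stCov (nat_lit 2) (nat_lit 122) (Rl.cons (nat_lit 122) (nat_lit 21) Rl.nil) C0_4 = true := by decide +kernel
def wf0_5 : wfC (nat_lit 61) (nat_lit 5) C0_5 = true := by decide +kernel
def pl0_5 : plCk (nat_lit 61) (nat_lit 5) (nat_lit 13) (nat_lit 0) (nat_lit 1) (nat_lit 6) (nat_lit 26) (nat_lit 4) (nat_lit 5) nl0 CL0 = true := by decide +kernel
def st0_5_0 : starCk (nat_lit 61) (nat_lit 5) (nat_lit 1) (nat_lit 2) (nat_lit 33) (nat_lit 41) (nat_lit 1) C0_5 = true := by decide +kernel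
def sc0_5 : stCov (nat_lit 0) (nat_lit 41) (Rl.cons (nat_lit 41) (nat_lit 33) Rl.nil) C0_5 = true := by decide +kernel
def wf0_6 : wfC (nat_lit 61) (nat_lit 5) C0_6 = true := by decide +kernel
def pl0_6 : plCk (nat_lit 61) (nat_lit 5) (nat_lit 13) (nat_lit 0) (nat_lit 1) (nat_lit 6) (nat_lit 26) (nat_lit 4) (nat_lit 6) nl0 CL0 = true := by decide +kernel
def st0_6_0 : starCk (nat_lit 61) (nat_lit 5) (nat_lit 1) (nat_lit 2) (nat_lit 17) (nat_lit 30) (nat_lit 1) C0_6 = true := by decide +kernel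
def sc0_6 : stCov (nat_lit 0) (nat_lit 30) (Rl.cons (nat_lit 30) (nat_lit 17) Rl.nil) C0_6 = true := by decide +kernel
def wf0_7 : wfC (nat_lit 61) (nat_lit 5) C0_7 = true := by decide +kernel
def pl0_7 : plCk (nat_lit 61) (nat_lit 5) (nat_lit 13) (nat_lit 0) (nat_lit 1) (nat_lit 6) (nat_lit 26) (nat_lit 4) (nat_lit 7) nl0 CL0 = true := by decide +kernel
def st0_7_0 : starCk (nat_lit 61) (nat_lit 5) (nat_lit 1) (nat_lit 2) (nat_lit 24) (nat_lit 51) (nat_lit 256) C0_7 = true := by decide +kernel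
def sc0_7 : stCov (nat_lit 2) (nat_lit 51) (Rl.cons (nat_lit 51) (nat_lit 24) Rl.nil) C0_7 = true := by decide +kernel
def wf0_8 : wfC (nat_lit 61) (nat_lit 5) C0_8 = true := by decide +kernel
def pl0_8 : plCk (nat_lit 61) (nat_lit 5) (nat_lit 13) (nat_lit 0) (nat_lit 1) (nat_lit 6) (nat_lit 26) (nat_lit 4) (nat_lit 8) nl0 CL0 = true := by decide +kernel
def st0_8_0 : starCk (nat_lit 61) (nat_lit 5) (nat_lit 1) (nat_lit 2) (nat_lit 21) (nat_lit 142) (nat_lit 256) C0_8 = true := by decide +kernel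
def sc0_8 : stCov (nat_lit 2) (nat_lit 142) (Rl.cons (nat_lit 142) (nat_lit 21) Rl.nil) C0_8 = true := by decide +kernel
def wf0_9 : wfC (nat_lit 61) (nat_lit 5) C0_9 = true := by decide +kernel
def pl0_9 : plCk (nat_lit 61) (nat_lit 5) (nat_lit 13) (nat_lit 0) (nat_lit 1) (nat_lit 6) (nat_lit 26) (nat_lit 4) (nat_lit 9) nl0 CL0 = true := by decide +kernel
def st0_9_0 : starCk (nat_lit 61) (nat_lit 5) (nat_lit 1) (nat_lit 2) (nat_lit 25) (nat_lit 71) (nat_lit 16) C0_9 = true := by decide +kernel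
def sc0_9 : stCov (nat_lit 1) (nat_lit 71) (Rl.cons (nat_lit 71) (nat_lit 25) Rl.nil) C0_9 = true := by decide +kernel
def wf0_10 : wfC (nat_lit 61) (nat_lit 5) C0_10 = true := by decide +kernel
def pl0_10 : plCk (nat_lit 61) (nat_lit 5) (nat_lit 13) (nat_lit 0) (nat_lit 1) (nat_lit 6) (nat_lit 26) (nat_lit 4) (nat_lit 10) nl0 CL0 = true := by decide +kernel
def st0_10_0 : starCk (nat_lit 61) (nat_lit 5) (nat_lit 1) (nat_lit 2) (nat_lit 17) (nat_lit 27) (nat_lit 1) C0_10 = true := by decide +kernel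
def sc0_10 : stCov (nat_lit 0) (nat_lit 27) (Rl.cons (nat_lit 27) (nat_lit 17) Rl.nil) C0_10 = true := by decide +kernel
def wf0_11 : wfC (nat_lit 61) (nat_lit 5) C0_11 = true := by decide +kernel
def pl0_11 : plCk (nat_lit 61) (nat_lit 5) (nat_lit 13) (nat_lit 0) (nat_lit 1) (nat_lit 6) (nat_lit 26) (nat_lit 4) (nat_lit 11) nl0 CL0 = true := by decide +kernel
def st0_11_0 : starCk (nat_lit 61) (nat_lit 5) (nat_lit 1) (nat_lit 2) (nat_lit 20) (nat_lit 133) (nat_lit 256) C0_11 = true := by decide +kernel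
def sc0_11 : stCov (nat_lit 2) (nat_lit 133) (Rl.cons (nat_lit 133) (nat_lit 20) Rl.nil) C0_11 = true := by decide +kernel
def wf0_12 : wfC (nat_lit 61) (nat_lit 5) C0_12 = true := by decide +kernel
def pl0_12 : plCk (nat_lit 61) (nat_lit 5) (nat_lit 13) (nat_lit 0) (nat_lit 1) (nat_lit 6) (nat_lit 26) (nat_lit 4) (nat_lit 12) nl0 CL0 = true := by decide +kernel
def st0_12_0 : starCk (nat_lit 61) (nat_lit 5) (nat_lit 1) (nat_lit 2) (nat_lit 22) (nat_lit 47) (nat_lit 256) C0_12 = true := by decide +kernel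
def sc0_12 : stCov (nat_lit 2) (nat_lit 47) (Rl.cons (nat_lit 47) (nat_lit 22) Rl.nil) C0_12 = true := by decide +kernel
def wf0_13 : wfC (nat_lit 61) (nat_lit 5) C0_13 = true := by decide +kernel
def pl0_13 : plCk (nat_lit 61) (nat_lit 5) (nat_lit 13) (nat_lit 0) (nat_lit 1) (nat_lit 6) (nat_lit 26) (nat_lit 4) (nat_lit 13) nl0 CL0 = true := by decide +kernel
def st0_13_0 : starCk (nat_lit 61) (nat_lit 5) (nat_lit 1) (nat_lit 2) (nat_lit 24) (nat_lit 39) (nat_lit 16) C0_13 = true := by decide +kernel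
def sc0_13 : stCov (nat_lit 1) (nat_lit 39) (Rl.cons (nat_lit 39) (nat_lit 24) Rl.nil) C0_13 = true := by decide +kernel
def wf0_14 : wfC (nat_lit 61) (nat_lit 5) C0_14 = true := by decide +kernel
def pl0_14 : plCk (nat_lit 61) (nat_lit 5) (nat_lit 13) (nat_lit 0) (nat_lit 1) (nat_lit 6) (nat_lit 26) (nat_lit 4) (nat_lit 14) nl0 CL0 = true := by decide +kernel
def st0_14_0 : starCk (nat_lit 61) (nat_lit 5) (nat_lit 1) (nat_lit 2) (nat_lit 19) (nat_lit 97) (nat_lit 256) C0_14 = true := by decide +kernel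
def sc0_14 : stCov (nat_lit 2) (nat_lit 97) (Rl.cons (nat_lit 97) (nat_lit 19) Rl.nil) C0_14 = true := by decide +kernel
def wf0_15 : wfC (nat_lit 61) (nat_lit 5) C0_15 = true := by decide +kernel
def pl0_15 : plCk (nat_lit 61) (nat_lit 5) (nat_lit 13) (nat_lit 0) (nat_lit 1) (nat_lit 6) (nat_lit 26) (nat_lit 4) (nat_lit 15) nl0 CL0 = true := by decide +kernel
def st0_15_0 : starCk (nat_lit 61) (nat_lit 5) (nat_lit 1) (nat_lit 2) (nat_lit 17) (nat_lit 33) (nat_lit 16) C0_15 = true := by decide +kernel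
def sc0_15 : stCov (nat_lit 1) (nat_lit 33) (Rl.cons (nat_lit 33) (nat_lit 17) Rl.nil) C0_15 = true := by decide +kernel
def wf0_16 : wfC (nat_lit 61) (nat_lit 5) C0_16 = true := by decide +kernel
def pl0_16 : plCk (nat_lit 61) (nat_lit 5) (nat_lit 13) (nat_lit 0) (nat_lit 1) (nat_lit 6) (nat_lit 26) (nat_lit 4) (nat_lit 16) nl0 CL0 = true := by decide +kernel
def st0_16_0 : starCk (nat_lit 61) (nat_lit 5) (nat_lit 1) (nat_lit 2) (nat_lit 8) (nat_lit 36) (nat_lit 256) C0_16 = true := by decide +kernel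
def sc0_16 : stCov (nat_lit 2) (nat_lit 36) (Rl.cons (nat_lit 36) (nat_lit 8) Rl.nil) C0_16 = true := by decide +kernel
def wf0_17 : wfC (nat_lit 61) (nat_lit 5) C0_17 = true := by decide +kernel
def pl0_17 : plCk (nat_lit 61) (nat_lit 5) (nat_lit 13) (nat_lit 0) (nat_lit 1) (nat_lit 6) (nat_lit 26) (nat_lit 4) (nat_lit 17) nl0 CL0 = true := by decide +kernel
def st0_17_0 : starCk (nat_lit 61) (nat_lit 5) (nat_lit 1) (nat_lit 2) (nat_lit 6) (nat_lit 25) (nat_lit 16) C0_17 = true := by decide +kernel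
def sc0_17 : stCov (nat_lit 1) (nat_lit 25) (Rl.cons (nat_lit 25) (nat_lit 6) Rl.nil) C0_17 = true := by decide +kernel
def wf0_18 : wfC (nat_lit 61) (nat_lit 5) C0_18 = true := by decide +kernel
def pl0_18 : plCk (nat_lit 61) (nat_lit 5) (nat_lit 13) (nat_lit 0) (nat_lit 1) (nat_lit 6) (nat_lit 26) (nat_lit 4) (nat_lit 18) nl0 CL0 = true := by decide +kernel
def st0_18_0 : starCk (nat_lit 61) (nat_lit 5) (nat_lit 1) (nat_lit 2) (nat_lit 4) (nat_lit 3) (nat_lit 1) C0_18 = true := by decide +kernel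
def sc0_18 : stCov (nat_lit 0) (nat_lit 3) (Rl.cons (nat_lit 3) (nat_lit 4) Rl.nil) C0_18 = true := by decide +kernel
def wf0_19 : wfC (nat_lit 61) (nat_lit 5) C0_19 = true := by decide +kernel
def pl0_19 : plCk (nat_lit 61) (nat_lit 5) (nat_lit 13) (nat_lit 0) (nat_lit 1) (nat_lit 6) (nat_lit 26) (nat_lit 4) (nat_lit 19) nl0 CL0 = true := by decide +kernel
def st0_19_0 : starCk (nat_lit 61) (nat_lit 5) (nat_lit 1) (nat_lit 2) (nat_lit 145) (nat_lit 183) (nat_lit 4096) C0_19 = true := by decide +kernel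
def sc0_19 : stCov (nat_lit 3) (nat_lit 183) (Rl.cons (nat_lit 183) (nat_lit 145) Rl.nil) C0_19 = true := by decide +kernel
def wf0_20 : wfC (nat_lit 61) (nat_lit 5) C0_20 = true := by decide +kernel
def pl0_20 : plCk (nat_lit 61) (nat_lit 5) (nat_lit 13) (nat_lit 0) (nat_lit 1) (nat_lit 6) (nat_lit 26) (nat_lit 4) (nat_lit 20) nl0 CL0 = true := by decide +kernel
def st0_20_0 : starCk (nat_lit 61) (nat_lit 5) (nat_lit 1) (nat_lit 2) (nat_lit 95) (nat_lit 127) (nat_lit 4096) C0_20 = true := by decide +kernel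
def sc0_20 : stCov (nat_lit 3) (nat_lit 127) (Rl.cons (nat_lit 127) (nat_lit 95) Rl.nil) C0_20 = true := by decide +kernel
def wf0_21 : wfC (nat_lit 61) (nat_lit 5) C0_21 = true := by decide +kernel
def pl0_21 : plCk (nat_lit 61) (nat_lit 5) (nat_lit 13) (nat_lit 0) (nat_lit 1) (nat_lit 6) (nat_lit 26) (nat_lit 4) (nat_lit 21) nl0 CL0 = true := by decide +kernel
def st0_21_0 : starCk (nat_lit 61) (nat_lit 5) (nat_lit 1) (nat_lit 2) (nat_lit 51) (nat_lit 121) (nat_lit 16) C0_21 = true := by decide +kernel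
def sc0_21 : stCov (nat_lit 1) (nat_lit 121) (Rl.cons (nat_lit 121) (nat_lit 51) Rl.nil) C0_21 = true := by decide +kernel
def wf0_22 : wfC (nat_lit 61) (nat_lit 5) C0_22 = true := by decide +kernel
def pl0_22 : plCk (nat_lit 61) (nat_lit 5) (nat_lit 13) (nat_lit 0) (nat_lit 1) (nat_lit 6) (nat_lit 26) (nat_lit 4) (nat_lit 22) nl0 CL0 = true := by decide +kernel
def st0_22_0 : starCk (nat_lit 61) (nat_lit 5) (nat_lit 1) (nat_lit 2) (nat_lit 62) (nat_lit 122) (nat_lit 16) C0_22 = true := by decide +kernel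
def sc0_22 : stCov (nat_lit 1) (nat_lit 122) (Rl.cons (nat_lit 122) (nat_lit 62) Rl.nil) C0_22 = true := by decide +kernel
def wf0_23 : wfC (nat_lit 61) (nat_lit 5) C0_23 = true := by decide +kernel
def pl0_23 : plCk (nat_lit 61) (nat_lit 5) (nat_lit 13) (nat_lit 0) (nat_lit 1) (nat_lit 6) (nat_lit 26) (nat_lit 4) (nat_lit 23) nl0 CL0 = true := by decide +kernel
def st0_23_0 : starCk (nat_lit 61) (nat_lit 5) (nat_lit 1) (nat_lit 2) (nat_lit 91) (nat_lit 123) (nat_lit 256) C0_23 = true := by decide +kernel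
def sc0_23 : stCov (nat_lit 2) (nat_lit 123) (Rl.cons (nat_lit 123) (nat_lit 91) Rl.nil) C0_23 = true := by decide +kernel
def wf0_24 : wfC (nat_lit 61) (nat_lit 5) C0_24 = true := by decide +kernel
def pl0_24 : plCk (nat_lit 61) (nat_lit 5) (nat_lit 13) (nat_lit 0) (nat_lit 1) (nat_lit 6) (nat_lit 26) (nat_lit 4) (nat_lit 24) nl0 CL0 = true := by decide +kernel
def st0_24_0 : starCk (nat_lit 61) (nat_lit 5) (nat_lit 1) (nat_lit 2) (nat_lit 41) (nat_lit 121) (nat_lit 16) C0_24 = true := by decide +kernel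
def sc0_24 : stCov (nat_lit 1) (nat_lit 121) (Rl.cons (nat_lit 121) (nat_lit 41) Rl.nil) C0_24 = true := by decide +kernel
def wf0_25 : wfC (nat_lit 61) (nat_lit 5) C0_25 = true := by decide +kernel
def pl0_25 : plCk (nat_lit 61) (nat_lit 5) (nat_lit 13) (nat_lit 0) (nat_lit 1) (nat_lit 6) (nat_lit 26) (nat_lit 4) (nat_lit 25) nl0 CL0 = true := by decide +kernel
def st0_25_0 : starCk (nat_lit 61) (nat_lit 5) (nat_lit 1) (nat_lit 2) (nat_lit 71) (nat_lit 96) (nat_lit 4096) C0_25 = true := by decide +kernel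
def sc0_25 : stCov (nat_lit 3) (nat_lit 96) (Rl.cons (nat_lit 96) (nat_lit 71) Rl.nil) C0_25 = true := by decide +kernel
def ti0_0 : tileCk (nat_lit 61) (nat_lit 5) (nat_lit 2) (nat_lit 2) (nat_lit 299) (nat_lit 13) (nat_lit 26) ZL0_0 CL0 = true := by decide +kernel
def zl0_0 : zlOK (nat_lit 299) ZL0_0 = true := by decide +kernel

end Pool.Agent.NNr.R13_1_2_3
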