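import Pool.Agent.NNr.R13_1_2_3.D0
import Pool.Agent.NNr.R13_1_2_3.D1
import Pool.Agent.NNe.Slots

set_option linter.all false
set_option maxRecDepth 1000000
namespace Pool.Agent.NNr.R13_1_2_3

open Pool.Agent.NNe

def st1_11_0 : starCk (nat_lit 61) (nat_lit 3) (nat_lit 1) (nat_lit 1) (nat_lit 31) (nat_lit 388) (nat_lit 256) C1_11 = true := by decide +kernel
def sc1_11 : stCov (nat_lit 2) (nat_lit 388) (Rl.cons (nat_lit 388) (nat_lit 31) Rl.nil) C1_11 = true := by decide +kernel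
def wf1_12 : wfC (nat_lit 61) (nat_lit 3) C1_12 = true := by decide +kernel
def rf1_12 : rfCk (nat_lit 61) (nat_lit 5) (nat_lit 61) (nat_lit 3) (nat_lit 5) (nat_lit 262144) (nat_lit 12) TL1 CL0 CL1 = true := by decide +kernel
def st1_12_0 : starCk (nat_lit 61) (nat_lit 3) (nat_lit 1) (nat_lit 1) (nat_lit 28) (nat_lit 136) (nat_lit 256) C1_12 = true := by decide +kernel
def sc1_12 : stCov (nat_lit 2) (nat_lit 136) (Rl.cons (nat_lit 136) (nat_lit 28) Rl.nil) C1_12 = true := by decide +kernel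
def wf1_13 : wfC (nat_lit 61) (nat_lit 3) C1_13 = true := by decide +kernel
def rf1_13 : rfCk (nat_lit 61) (nat_lit 5) (nat_lit 61) (nat_lit 3) (nat_lit 5) (nat_lit 262144) (nat_lit 13) TL1 CL0 CL1 = true := by decide +kernel
def st1_13_0 : starCk (nat_lit 61) (nat_lit 3) (nat_lit 1) (nat_lit 1) (nat_lit 86) (nat_lit 136) (nat_lit 16) C1_13 = true := by decide +kernel
def sc1_13 : stCov (nat_lit 1) (nat_lit 136) (Rl.cons (nat_lit 136) (nat_lit 86) Rl.nil) C1_13 = true := by decide +kernel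
def wf1_14 : wfC (nat_lit 61) (nat_lit 3) C1_14 = true := by decide +kernel
def rf1_14 : rfCk (nat_lit 61) (nat_lit 5) (nat_lit 61) (nat_lit 3) (nat_lit 5) (nat_lit 262144) (nat_lit 14) TL1 CL0 CL1 = true := by decide +kernel
def st1_14_0 : starCk (nat_lit 61) (nat_lit 3) (nat_lit 1) (nat_lit 1) (nat_lit 20) (nat_lit 246) (nat_lit 256) C1_14 = true := by decide +kernel
def sc1_14 : stCov (nat_lit 2) (nat_lit 246) (Rl.cons (nat_lit 246) (nat_lit 20) Rl.nil) C1_14 = true := by decide +kernel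
def wf1_15 : wfC (nat_lit 61) (nat_lit 3) C1_15 = true := by decide +kernel
def rf1_15 : rfCk (nat_lit 61) (nat_lit 5) (nat_lit 61) (nat_lit 3) (nat_lit 5) (nat_lit 262144) (nat_lit 15) TL1 CL0 CL1 = true := by decide +kernel
def st1_15_0 : starCk (nat_lit 61) (nat_lit 3) (nat_lit 1) (nat_lit 1) (nat_lit 38) (nat_lit 92) (nat_lit 16) C1_15 = true := by decide +kernel
def sc1_15 : stCov (nat_lit 1) (nat_lit 92) (Rl.cons (nat_lit 92) (nat_lit 38) Rl.nil) C1_15 = true := by decide +kernel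
def wf1_16 : wfC (nat_lit 61) (nat_lit 3) C1_16 = true := by decide +kernel
def rf1_16 : rfCk (nat_lit 61) (nat_lit 5) (nat_lit 61) (nat_lit 3) (nat_lit 5) (nat_lit 262144) (nat_lit 16) TL1 CL0 CL1 = true := by decide +kernel
def st1_16_0 : starCk (nat_lit 61) (nat_lit 3) (nat_lit 1) (nat_lit 1) (nat_lit 4) (nat_lit 72) (nat_lit 256) C1_16 = true := by decide +kernel
def sc1_16 : stCov (nat_lit 2) (nat_lit 72) (Rl.cons (nat_lit 72) (nat_lit 4) Rl.nil) C1_16 = true := by decide +kernel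
def wf1_17 : wfC (nat_lit 61) (nat_lit 3) C1_17 = true := by decide +kernel
def rf1_17 : rfCk (nat_lit 61) (nat_lit 5) (nat_lit 61) (nat_lit 3) (nat_lit 5) (nat_lit 262144) (nat_lit 17) TL1 CL0 CL1 = true := by decide +kernel
def st1_17_0 : starCk (nat_lit 61) (nat_lit 3) (nat_lit 1) (nat_lit 1) (nat_lit 4) (nat_lit 30) (nat_lit 16) C1_17 = true := by decide +kernel
def sc1_17 : stCov (nat_lit 1) (nat_lit 30) (Rl.cons (nat_lit 30) (nat_lit 4) Rl.nil) C1_17 = true := by decide +kernel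
def wf1_19 : wfC (nat_lit 61) (nat_lit 3) C1_19 = true := by decide +kernel
def rf1_19 : rfCk (nat_lit 61) (nat_lit 5) (nat_lit 61) (nat_lit 3) (nat_lit 5) (nat_lit 262144) (nat_lit 19) TL1 CL0 CL1 = true := by decide +kernel
def st1_19_0 : starCk (nat_lit 61) (nat_lit 3) (nat_lit 1) (nat_lit 1) (nat_lit 173) (nat_lit 0) (nat_lit 256) C1_19 = true := by decide +kernel
def sc1_19 : stCov (nat_lit 2) (nat_lit 0) (Rl.cons (nat_lit 0) (nat_lit 173) Rl.nil) C1_19 = true := by decide +kernel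
def wf1_20 : wfC (nat_lit 61) (nat_lit 3) C1_20 = true := by decide +kernel
def rf1_20 : rfCk (nat_lit 61) (nat_lit 5) (nat_lit 61) (nat_lit 3) (nat_lit 5) (nat_lit 262144) (nat_lit 20) TL1 CL0 CL1 = true := by decide +kernel
def st1_20_0 : starCk (nat_lit 61) (nat_lit 3) (nat_lit 1) (nat_lit 1) (nat_lit 252) (nat_lit 316) (nat_lit 4096) C1_20 = true := by decide +kernel
def sc1_20 : stCov (nat_lit 3) (nat_lit 316) (Rl.cons (nat_lit 316) (nat_lit 252) Rl.nil) C1_20 = true := by decide +kernel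
def wf1_21 : wfC (nat_lit 61) (nat_lit 3) C1_21 = true := by decide +kernel
def rf1_21 : rfCk (nat_lit 61) (nat_lit 5) (nat_lit 61) (nat_lit 3) (nat_lit 5) (nat_lit 262144) (nat_lit 21) TL1 CL0 CL1 = true := by decide +kernel
def st1_21_0 : starCk (nat_lit 61) (nat_lit 3) (nat_lit 1) (nat_lit 1) (nat_lit 156) (nat_lit 390) (nat_lit 16) C1_21 = true := by decide +kernel
def sc1_21 : stCov (nat_lit 1) (nat_lit 390) (Rl.cons (nat_lit 390) (nat_lit 156) Rl.nil) C1_21 = true := by decide +kernel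
def wf1_22 : wfC (nat_lit 61) (nat_lit 3) C1_22 = true := by decide +kernel
def rf1_22 : rfCk (nat_lit 61) (nat_lit 5) (nat_lit 61) (nat_lit 3) (nat_lit 5) (nat_lit 262144) (nat_lit 22) TL1 CL0 CL1 = true := by decide +kernel
def st1_22_0 : starCk (nat_lit 61) (nat_lit 3) (nat_lit 1) (nat_lit 1) (nat_lit 166) (nat_lit 364) (nat_lit 16) C1_22 = true := by decide +kernel
def sc1_22 : stCov (nat_lit 1) (nat_lit 364) (Rl.cons (nat_lit 364) (nat_lit 166) Rl.nil) C1_22 = true := by decide +kernel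
def wf1_23 : wfC (nat_lit 61) (nat_lit 3) C1_23 = true := by decide +kernel
def rf1_23 : rfCk (nat_lit 61) (nat_lit 5) (nat_lit 61) (nat_lit 3) (nat_lit 5) (nat_lit 262144) (nat_lit 23) TL1 CL0 CL1 = true := by decide +kernel
def st1_23_0 : starCk (nat_lit 61) (nat_lit 3) (nat_lit 1) (nat_lit 1) (nat_lit 153) (nat_lit 412) (nat_lit 256) C1_23 = true := by decide +kernel
def sc1_23 : stCov (nat_lit 2) (nat_lit 412) (Rl.cons (nat_lit 412) (nat_lit 153) Rl.nil) C1_23 = true := by decide +kernel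
def wf1_24 : wfC (nat_lit 61) (nat_lit 3) C1_24 = true := by decide +kernel

end Pool.Agent.NNr.R13_1_2_3
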