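import Pool.Agent.NNr.R13_1_2_3.D0
import Pool.Agent.NNr.R13_1_2_3.D1
import Pool.Agent.NNe.Slots

set_option linter.all false
set_option maxRecDepth 1000000
namespace Pool.Agent.NNr.R13_1_2_3

open Pool.Agent.NNe

def rf1_24 : rfCk (nat_lit 61) (nat_lit 5) (nat_lit 61) (nat_lit 3) (nat_lit 5) (nat_lit 262144) (nat_lit 24) TL1 CL0 CL1 = true := by decide +kernel
def st1_24_0 : starCk (nat_lit 61) (nat_lit 3) (nat_lit 1) (nat_lit 1) (nat_lit 136) (nat_lit 406) (nat_lit 16) C1_24 = true := by decide +kernel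
def sc1_24 : stCov (nat_lit 1) (nat_lit 406) (Rl.cons (nat_lit 406) (nat_lit 136) Rl.nil) C1_24 = true := by decide +kernel
def wf1_25 : wfC (nat_lit 61) (nat_lit 3) C1_25 = true := by decide +kernel
def rf1_25 : rfCk (nat_lit 61) (nat_lit 5) (nat_lit 61) (nat_lit 3) (nat_lit 5) (nat_lit 262144) (nat_lit 25) TL1 CL0 CL1 = true := by decide +kernel
def st1_25_0 : starCk (nat_lit 61) (nat_lit 3) (nat_lit 1) (nat_lit 1) (nat_lit 244) (nat_lit 344) (nat_lit 4096) C1_25 = true := by decide +kernel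
def sc1_25 : stCov (nat_lit 3) (nat_lit 344) (Rl.cons (nat_lit 344) (nat_lit 244) Rl.nil) C1_25 = true := by decide +kernel
def ti1_0 : tileCk (nat_lit 61) (nat_lit 3) (nat_lit 2) (nat_lit 1) (nat_lit 478) (nat_lit 13) (nat_lit 26) ZL1_0 CL1 = true := by decide +kernel
def zl1_0 : zlOK (nat_lit 478) ZL1_0 = true := by decide +kernel

end Pool.Agent.NNr.R13_1_2_3
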