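import Pool.Agent.NNr.R13_1_2_3.D1

set_option linter.all false
set_option maxRecDepth 1000000
namespace Pool.Agent.NNr.R13_1_2_3

open Pool.Agent.NNe

def ti1_1 : tileCk (nat_lit 61) (nat_lit 3) (nat_lit 2) (nat_lit 1) (nat_lit 479) (nat_lit 13) (nat_lit 26) ZL1_1 CL1 = true := by decide +kernel
def zl1_1 : zlOK (nat_lit 479) ZL1_1 = true := by decide +kernel
def ti1_2 : tileCk (nat_lit 61) (nat_lit 3) (nat_lit 2) (nat_lit 1) (nat_lit 478) (nat_lit 13) (nat_lit 26) ZL1_2 CL1 = true := by decide +kernel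
def zl1_2 : zlOK (nat_lit 478) ZL1_2 = true := by decide +kernel

end Pool.Agent.NNr.R13_1_2_3
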