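import Pool.Agent.NNr.R13_1_2_3.D1
import Pool.Agent.NNr.R13_1_2_3.D2

set_option linter.all false
set_option maxRecDepth 1000000
namespace Pool.Agent.NNr.R13_1_2_3

open Pool.Agent.NNe

def st2_19_0 : starCk (nat_lit 60) (nat_lit 7) (nat_lit 1) (nat_lit 3) (nat_lit 194) (nat_lit 231) (nat_lit 4096) C2_19 = true := by decide +kernel
def sc2_19 : stCov (nat_lit 3) (nat_lit 231) (Rl.cons (nat_lit 231) (nat_lit 194) Rl.nil) C2_19 = true := by decide +kernel
def wf2_20 : wfC (nat_lit 60) (nat_lit 7) C2_20 = true := by decide +kernel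
def rf2_20 : rfCk (nat_lit 61) (nat_lit 3) (nat_lit 60) (nat_lit 7) (nat_lit 9) (nat_lit 0) (nat_lit 20) TL2 CL1 CL2 = true := by decide +kernel
def st2_20_0 : starCk (nat_lit 60) (nat_lit 7) (nat_lit 1) (nat_lit 3) (nat_lit 134) (nat_lit 183) (nat_lit 4096) C2_20 = true := by decide +kernel
def sc2_20 : stCov (nat_lit 3) (nat_lit 183) (Rl.cons (nat_lit 183) (nat_lit 134) Rl.nil) C2_20 = true := by decide +kernel
def wf2_21 : wfC (nat_lit 60) (nat_lit 7) C2_21 = true := by decide +kernel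
def rf2_21 : rfCk (nat_lit 61) (nat_lit 3) (nat_lit 60) (nat_lit 7) (nat_lit 9) (nat_lit 0) (nat_lit 21) TL2 CL1 CL2 = true := by decide +kernel
def st2_21_0 : starCk (nat_lit 60) (nat_lit 7) (nat_lit 1) (nat_lit 3) (nat_lit 84) (nat_lit 190) (nat_lit 16) C2_21 = true := by decide +kernel
def sc2_21 : stCov (nat_lit 1) (nat_lit 190) (Rl.cons (nat_lit 190) (nat_lit 84) Rl.nil) C2_21 = true := by decide +kernel
def wf2_22 : wfC (nat_lit 60) (nat_lit 7) C2_22 = true := by decide +kernel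
def rf2_22 : rfCk (nat_lit 61) (nat_lit 3) (nat_lit 60) (nat_lit 7) (nat_lit 9) (nat_lit 0) (nat_lit 22) TL2 CL1 CL2 = true := by decide +kernel
def st2_22_0 : starCk (nat_lit 60) (nat_lit 7) (nat_lit 1) (nat_lit 3) (nat_lit 83) (nat_lit 104) (nat_lit 1) C2_22 = true := by decide +kernel
def sc2_22 : stCov (nat_lit 0) (nat_lit 104) (Rl.cons (nat_lit 104) (nat_lit 83) Rl.nil) C2_22 = true := by decide +kernel
def wf2_23 : wfC (nat_lit 60) (nat_lit 7) C2_23 = true := by decide +kernel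
def rf2_23 : rfCk (nat_lit 61) (nat_lit 3) (nat_lit 60) (nat_lit 7) (nat_lit 9) (nat_lit 0) (nat_lit 23) TL2 CL1 CL2 = true := by decide +kernel
def st2_23_0 : starCk (nat_lit 60) (nat_lit 7) (nat_lit 1) (nat_lit 3) (nat_lit 101) (nat_lit 184) (nat_lit 256) C2_23 = true := by decide +kernel
def sc2_23 : stCov (nat_lit 2) (nat_lit 184) (Rl.cons (nat_lit 184) (nat_lit 101) Rl.nil) C2_23 = true := by decide +kernel
def wf2_24 : wfC (nat_lit 60) (nat_lit 7) C2_24 = true := by decide +kernel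
def rf2_24 : rfCk (nat_lit 61) (nat_lit 3) (nat_lit 60) (nat_lit 7) (nat_lit 9) (nat_lit 0) (nat_lit 24) TL2 CL1 CL2 = true := by decide +kernel
def st2_24_0 : starCk (nat_lit 60) (nat_lit 7) (nat_lit 1) (nat_lit 3) (nat_lit 56) (nat_lit 219) (nat_lit 16) C2_24 = true := by decide +kernel
def sc2_24 : stCov (nat_lit 1) (nat_lit 219) (Rl.cons (nat_lit 219) (nat_lit 56) Rl.nil) C2_24 = true := by decide +kernel
def wf2_25 : wfC (nat_lit 60) (nat_lit 7) C2_25 = true := by decide +kernel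
def rf2_25 : rfCk (nat_lit 61) (nat_lit 3) (nat_lit 60) (nat_lit 7) (nat_lit 9) (nat_lit 0) (nat_lit 25) TL2 CL1 CL2 = true := by decide +kernel
def st2_25_0 : starCk (nat_lit 60) (nat_lit 7) (nat_lit 1) (nat_lit 3) (nat_lit 129) (nat_lit 181) (nat_lit 4096) C2_25 = true := by decide +kernel
def sc2_25 : stCov (nat_lit 3) (nat_lit 181) (Rl.cons (nat_lit 181) (nat_lit 129) Rl.nil) C2_25 = true := by decide +kernel
def ti2_0 : tileCk (nat_lit 60) (nat_lit 7) (nat_lit 2) (nat_lit 3) (nat_lit 300) (nat_lit 13) (nat_lit 26) ZL2_0 CL2 = true := by decide +kernel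
def zl2_0 : zlOK (nat_lit 300) ZL2_0 = true := by decide +kernel

end Pool.Agent.NNr.R13_1_2_3
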