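import Pool.Agent.NNr.R13_1_2_3.D0
import Pool.Agent.NNr.R13_1_2_3.D1
import Pool.Agent.NNr.R13_1_2_3.D2
import Pool.Agent.NNr.R13_1_2_3.D3
import Pool.Agent.NNr.R13_1_2_3.D4
import Pool.Agent.NNe.Slots

set_option linter.all false
set_option maxRecDepth 1000000
namespace Pool.Agent.NNr.R13_1_2_3

open Pool.Agent.NNe

def st3_20_0 : starCk (nat_lit 59) (nat_lit 9) (nat_lit 1) (nat_lit 4) (nat_lit 75) (nat_lit 109) (nat_lit 4096) C3_20 = true := by decide +kernel
def sc3_20 : stCov (nat_lit 3) (nat_lit 109) (Rl.cons (nat_lit 109) (nat_lit 75) Rl.nil) C3_20 = true := by decide +kernel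
def wf3_21 : wfC (nat_lit 59) (nat_lit 9) C3_21 = true := by decide +kernel
def rf3_21 : rfCk (nat_lit 60) (nat_lit 7) (nat_lit 59) (nat_lit 9) (nat_lit 9) (nat_lit 0) (nat_lit 21) TL3 CL2 CL3 = true := by decide +kernel
def st3_21_0 : starCk (nat_lit 59) (nat_lit 9) (nat_lit 1) (nat_lit 4) (nat_lit 56) (nat_lit 114) (nat_lit 16) C3_21 = true := by decide +kernel
def sc3_21 : stCov (nat_lit 1) (nat_lit 114) (Rl.cons (nat_lit 114) (nat_lit 56) Rl.nil) C3_21 = true := by decide +kernel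
def wf3_22 : wfC (nat_lit 59) (nat_lit 9) C3_22 = true := by decide +kernel
def rf3_22 : rfCk (nat_lit 60) (nat_lit 7) (nat_lit 59) (nat_lit 9) (nat_lit 9) (nat_lit 0) (nat_lit 22) TL3 CL2 CL3 = true := by decide +kernel
def st3_22_0 : starCk (nat_lit 59) (nat_lit 9) (nat_lit 1) (nat_lit 4) (nat_lit 55) (nat_lit 122) (nat_lit 16) C3_22 = true := by decide +kernel
def sc3_22 : stCov (nat_lit 1) (nat_lit 122) (Rl.cons (nat_lit 122) (nat_lit 55) Rl.nil) C3_22 = true := by decide +kernel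
def wf3_23 : wfC (nat_lit 59) (nat_lit 9) C3_23 = true := by decide +kernel
def rf3_23 : rfCk (nat_lit 60) (nat_lit 7) (nat_lit 59) (nat_lit 9) (nat_lit 9) (nat_lit 0) (nat_lit 23) TL3 CL2 CL3 = true := by decide +kernel
def st3_23_0 : starCk (nat_lit 59) (nat_lit 9) (nat_lit 1) (nat_lit 4) (nat_lit 3) (nat_lit 9) (nat_lit 1) C3_23 = true := by decide +kernel
def sc3_23 : stCov (nat_lit 0) (nat_lit 9) (Rl.cons (nat_lit 9) (nat_lit 3) Rl.nil) C3_23 = true := by decide +kernel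
def wf3_24 : wfC (nat_lit 59) (nat_lit 9) C3_24 = true := by decide +kernel
def rf3_24 : rfCk (nat_lit 60) (nat_lit 7) (nat_lit 59) (nat_lit 9) (nat_lit 9) (nat_lit 0) (nat_lit 24) TL3 CL2 CL3 = true := by decide +kernel
def st3_24_0 : starCk (nat_lit 59) (nat_lit 9) (nat_lit 1) (nat_lit 4) (nat_lit 40) (nat_lit 148) (nat_lit 16) C3_24 = true := by decide +kernel
def sc3_24 : stCov (nat_lit 1) (nat_lit 148) (Rl.cons (nat_lit 148) (nat_lit 40) Rl.nil) C3_24 = true := by decide +kernel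
def wf3_25 : wfC (nat_lit 59) (nat_lit 9) C3_25 = true := by decide +kernel
def rf3_25 : rfCk (nat_lit 60) (nat_lit 7) (nat_lit 59) (nat_lit 9) (nat_lit 9) (nat_lit 0) (nat_lit 25) TL3 CL2 CL3 = true := by decide +kernel
def st3_25_0 : starCk (nat_lit 59) (nat_lit 9) (nat_lit 1) (nat_lit 4) (nat_lit 93) (nat_lit 131) (nat_lit 4096) C3_25 = true := by decide +kernel
def sc3_25 : stCov (nat_lit 3) (nat_lit 131) (Rl.cons (nat_lit 131) (nat_lit 93) Rl.nil) C3_25 = true := by decide +kernel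
def ti3_0 : tileCk (nat_lit 59) (nat_lit 9) (nat_lit 2) (nat_lit 4) (nat_lit 445) (nat_lit 13) (nat_lit 26) ZL3_0 CL3 = true := by decide +kernel
def zl3_0 : zlOK (nat_lit 445) ZL3_0 = true := by decide +kernel
def ti3_1 : tileCk (nat_lit 59) (nat_lit 9) (nat_lit 2) (nat_lit 4) (nat_lit 262) (nat_lit 13) (nat_lit 26) ZL3_1 CL3 = true := by decide +kernel
def zl3_1 : zlOK (nat_lit 262) ZL3_1 = true := by decide +kernel
def tc3_0 : tiCov (nat_lit 1) (nat_lit 0) ZZ3 C3_0 = true := by decide +kernel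
def tc3_1 : tiCov (nat_lit 1) (nat_lit 1) ZZ3 C3_1 = true := by decide +kernel
def tc3_2 : tiCov (nat_lit 1) (nat_lit 2) ZZ3 C3_2 = true := by decide +kernel
def tc3_3 : tiCov (nat_lit 1) (nat_lit 3) ZZ3 C3_3 = true := by decide +kernel
def tc3_4 : tiCov (nat_lit 1) (nat_lit 4) ZZ3 C3_4 = true := by decide +kernel
def tc3_5 : tiCov (nat_lit 1) (nat_lit 5) ZZ3 C3_5 = true := by decide +kernel
def tc3_6 : tiCov (nat_lit 1) (nat_lit 6) ZZ3 C3_6 = true := by decide +kernel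
def tc3_7 : tiCov (nat_lit 1) (nat_lit 7) ZZ3 C3_7 = true := by decide +kernel
def tc3_8 : tiCov (nat_lit 1) (nat_lit 8) ZZ3 C3_8 = true := by decide +kernel
def tc3_9 : tiCov (nat_lit 1) (nat_lit 9) ZZ3 C3_9 = true := by decide +kernel
def tc3_10 : tiCov (nat_lit 1) (nat_lit 10) ZZ3 C3_10 = true := by decide +kernel
def tc3_11 : tiCov (nat_lit 1) (nat_lit 11) ZZ3 C3_11 = true := by decide +kernel
def tc3_12 : tiCov (nat_lit 1) (nat_lit 12) ZZ3 C3_12 = true := by decide +kernel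
def tc3_13 : tiCov (nat_lit 1) (nat_lit 13) ZZ3 C3_13 = true := by decide +kernel
def tc3_14 : tiCov (nat_lit 1) (nat_lit 14) ZZ3 C3_14 = true := by decide +kernel
def tc3_15 : tiCov (nat_lit 1) (nat_lit 15) ZZ3 C3_15 = true := by decide +kernel
def tc3_16 : tiCov (nat_lit 1) (nat_lit 16) ZZ3 C3_16 = true := by decide +kernel
def tc3_19 : tiCov (nat_lit 1) (nat_lit 19) ZZ3 C3_19 = true := by decide +kernel
def tc3_20 : tiCov (nat_lit 1) (nat_lit 20) ZZ3 C3_20 = true := by decide +kernel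
def tc3_21 : tiCov (nat_lit 1) (nat_lit 21) ZZ3 C3_21 = true := by decide +kernel
def tc3_22 : tiCov (nat_lit 1) (nat_lit 22) ZZ3 C3_22 = true := by decide +kernel
def tc3_23 : tiCov (nat_lit 1) (nat_lit 23) ZZ3 C3_23 = true := by decide +kernel
def tc3_24 : tiCov (nat_lit 1) (nat_lit 24) ZZ3 C3_24 = true := by decide +kernel
def tc3_25 : tiCov (nat_lit 1) (nat_lit 25) ZZ3 C3_25 = true := by decide +kernel
def wf4_0 : wfC (nat_lit 29) (nat_lit 7) C4_0 = true := by decide +kernel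
def rf4_0 : rfCk (nat_lit 59) (nat_lit 9) (nat_lit 29) (nat_lit 7) (nat_lit 9) (nat_lit 0) (nat_lit 0) TL4 CL3 CL4 = true := by decide +kernel
def st4_0_0 : starCk (nat_lit 29) (nat_lit 7) (nat_lit 1) (nat_lit 3) (nat_lit 7) (nat_lit 0) (nat_lit 256) C4_0 = true := by decide +kernel
def sc4_0 : stCov (nat_lit 2) (nat_lit 0) (Rl.cons (nat_lit 0) (nat_lit 7) Rl.nil) C4_0 = true := by decide +kernel
def wf4_2 : wfC (nat_lit 29) (nat_lit 7) C4_2 = true := by decide +kernel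
def rf4_2 : rfCk (nat_lit 59) (nat_lit 9) (nat_lit 29) (nat_lit 7) (nat_lit 9) (nat_lit 0) (nat_lit 2) TL4 CL3 CL4 = true := by decide +kernel
def st4_2_0 : starCk (nat_lit 29) (nat_lit 7) (nat_lit 1) (nat_lit 3) (nat_lit 3) (nat_lit 0) (nat_lit 16) C4_2 = true := by decide +kernel
def sc4_2 : stCov (nat_lit 1) (nat_lit 0) (Rl.cons (nat_lit 0) (nat_lit 3) Rl.nil) C4_2 = true := by decide +kernel
def wf4_4 : wfC (nat_lit 29) (nat_lit 7) C4_4 = true := by decide +kernel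
def rf4_4 : rfCk (nat_lit 59) (nat_lit 9) (nat_lit 29) (nat_lit 7) (nat_lit 9) (nat_lit 0) (nat_lit 4) TL4 CL3 CL4 = true := by decide +kernel
def st4_4_0 : starCk (nat_lit 29) (nat_lit 7) (nat_lit 1) (nat_lit 3) (nat_lit 1) (nat_lit 7) (nat_lit 256) C4_4 = true := by decide +kernel
def sc4_4 : stCov (nat_lit 2) (nat_lit 7) (Rl.cons (nat_lit 7) (nat_lit 1) Rl.nil) C4_4 = true := by decide +kernel
def wf4_5 : wfC (nat_lit 29) (nat_lit 7) C4_5 = true := by decide +kernel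
def rf4_5 : rfCk (nat_lit 59) (nat_lit 9) (nat_lit 29) (nat_lit 7) (nat_lit 9) (nat_lit 0) (nat_lit 5) TL4 CL3 CL4 = true := by decide +kernel
def st4_5_0 : starCk (nat_lit 29) (nat_lit 7) (nat_lit 1) (nat_lit 3) (nat_lit 3) (nat_lit 5) (nat_lit 1) C4_5 = true := by decide +kernel
def sc4_5 : stCov (nat_lit 0) (nat_lit 5) (Rl.cons (nat_lit 5) (nat_lit 3) Rl.nil) C4_5 = true := by decide +kernel
def wf4_6 : wfC (nat_lit 29) (nat_lit 7) C4_6 = true := by decide +kernel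
def rf4_6 : rfCk (nat_lit 59) (nat_lit 9) (nat_lit 29) (nat_lit 7) (nat_lit 9) (nat_lit 0) (nat_lit 6) TL4 CL3 CL4 = true := by decide +kernel
def st4_6_0 : starCk (nat_lit 29) (nat_lit 7) (nat_lit 1) (nat_lit 3) (nat_lit 4) (nat_lit 4) (nat_lit 1) C4_6 = true := by decide +kernel
def sc4_6 : stCov (nat_lit 0) (nat_lit 4) (Rl.cons (nat_lit 4) (nat_lit 4) Rl.nil) C4_6 = true := by decide +kernel
def wf4_8 : wfC (nat_lit 29) (nat_lit 7) C4_8 = true := by decide +kernel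
def rf4_8 : rfCk (nat_lit 59) (nat_lit 9) (nat_lit 29) (nat_lit 7) (nat_lit 9) (nat_lit 0) (nat_lit 8) TL4 CL3 CL4 = true := by decide +kernel
def st4_8_0 : starCk (nat_lit 29) (nat_lit 7) (nat_lit 1) (nat_lit 3) (nat_lit 4) (nat_lit 48) (nat_lit 256) C4_8 = true := by decide +kernel
def sc4_8 : stCov (nat_lit 2) (nat_lit 48) (Rl.cons (nat_lit 48) (nat_lit 4) Rl.nil) C4_8 = true := by decide +kernel
def wf4_9 : wfC (nat_lit 29) (nat_lit 7) C4_9 = true := by decide +kernel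
def rf4_9 : rfCk (nat_lit 59) (nat_lit 9) (nat_lit 29) (nat_lit 7) (nat_lit 9) (nat_lit 0) (nat_lit 9) TL4 CL3 CL4 = true := by decide +kernel
def st4_9_0 : starCk (nat_lit 29) (nat_lit 7) (nat_lit 1) (nat_lit 3) (nat_lit 3) (nat_lit 12) (nat_lit 16) C4_9 = true := by decide +kernel
def sc4_9 : stCov (nat_lit 1) (nat_lit 12) (Rl.cons (nat_lit 12) (nat_lit 3) Rl.nil) C4_9 = true := by decide +kernel
def wf4_10 : wfC (nat_lit 29) (nat_lit 7) C4_10 = true := by decide +kernel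
def rf4_10 : rfCk (nat_lit 59) (nat_lit 9) (nat_lit 29) (nat_lit 7) (nat_lit 9) (nat_lit 0) (nat_lit 10) TL4 CL3 CL4 = true := by decide +kernel
def st4_10_0 : starCk (nat_lit 29) (nat_lit 7) (nat_lit 1) (nat_lit 3) (nat_lit 6) (nat_lit 14) (nat_lit 1) C4_10 = true := by decide +kernel
def sc4_10 : stCov (nat_lit 0) (nat_lit 14) (Rl.cons (nat_lit 14) (nat_lit 6) Rl.nil) C4_10 = true := by decide +kernel
def wf4_12 : wfC (nat_lit 29) (nat_lit 7) C4_12 = true := by decide +kernel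
def rf4_12 : rfCk (nat_lit 59) (nat_lit 9) (nat_lit 29) (nat_lit 7) (nat_lit 9) (nat_lit 0) (nat_lit 12) TL4 CL3 CL4 = true := by decide +kernel
def st4_12_0 : starCk (nat_lit 29) (nat_lit 7) (nat_lit 1) (nat_lit 3) (nat_lit 1) (nat_lit 8) (nat_lit 256) C4_12 = true := by decide +kernel
def sc4_12 : stCov (nat_lit 2) (nat_lit 8) (Rl.cons (nat_lit 8) (nat_lit 1) Rl.nil) C4_12 = true := by decide +kernel
def wf4_13 : wfC (nat_lit 29) (nat_lit 7) C4_13 = true := by decide +kernel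
def rf4_13 : rfCk (nat_lit 59) (nat_lit 9) (nat_lit 29) (nat_lit 7) (nat_lit 9) (nat_lit 0) (nat_lit 13) TL4 CL3 CL4 = true := by decide +kernel
def st4_13_0 : starCk (nat_lit 29) (nat_lit 7) (nat_lit 1) (nat_lit 3) (nat_lit 3) (nat_lit 11) (nat_lit 1) C4_13 = true := by decide +kernel
def sc4_13 : stCov (nat_lit 0) (nat_lit 11) (Rl.cons (nat_lit 11) (nat_lit 3) Rl.nil) C4_13 = true := by decide +kernel
def wf4_15 : wfC (nat_lit 29) (nat_lit 7) C4_15 = true := by decide +kernel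
def rf4_15 : rfCk (nat_lit 59) (nat_lit 9) (nat_lit 29) (nat_lit 7) (nat_lit 9) (nat_lit 0) (nat_lit 15) TL4 CL3 CL4 = true := by decide +kernel
def st4_15_0 : starCk (nat_lit 29) (nat_lit 7) (nat_lit 1) (nat_lit 3) (nat_lit 3) (nat_lit 8) (nat_lit 16) C4_15 = true := by decide +kernel
def sc4_15 : stCov (nat_lit 1) (nat_lit 8) (Rl.cons (nat_lit 8) (nat_lit 3) Rl.nil) C4_15 = true := by decide +kernel
def wf4_19 : wfC (nat_lit 29) (nat_lit 7) C4_19 = true := by decide +kernel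
def rf4_19 : rfCk (nat_lit 59) (nat_lit 9) (nat_lit 29) (nat_lit 7) (nat_lit 9) (nat_lit 0) (nat_lit 19) TL4 CL3 CL4 = true := by decide +kernel
def st4_19_0 : starCk (nat_lit 29) (nat_lit 7) (nat_lit 1) (nat_lit 3) (nat_lit 46) (nat_lit 62) (nat_lit 4096) C4_19 = true := by decide +kernel
def sc4_19 : stCov (nat_lit 3) (nat_lit 62) (Rl.cons (nat_lit 62) (nat_lit 46) Rl.nil) C4_19 = true := by decide +kernel
def wf4_20 : wfC (nat_lit 29) (nat_lit 7) C4_20 = true := by decide +kernel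
def rf4_20 : rfCk (nat_lit 59) (nat_lit 9) (nat_lit 29) (nat_lit 7) (nat_lit 9) (nat_lit 0) (nat_lit 20) TL4 CL3 CL4 = true := by decide +kernel
def st4_20_0 : starCk (nat_lit 29) (nat_lit 7) (nat_lit 1) (nat_lit 3) (nat_lit 2) (nat_lit 4) (nat_lit 4096) C4_20 = true := by decide +kernel
def sc4_20 : stCov (nat_lit 3) (nat_lit 4) (Rl.cons (nat_lit 4) (nat_lit 2) Rl.nil) C4_20 = true := by decide +kernel
def wf4_21 : wfC (nat_lit 29) (nat_lit 7) C4_21 = true := by decide +kernel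
def rf4_21 : rfCk (nat_lit 59) (nat_lit 9) (nat_lit 29) (nat_lit 7) (nat_lit 9) (nat_lit 0) (nat_lit 21) TL4 CL3 CL4 = true := by decide +kernel
def st4_21_0 : starCk (nat_lit 29) (nat_lit 7) (nat_lit 1) (nat_lit 3) (nat_lit 4) (nat_lit 2) (nat_lit 1) C4_21 = true := by decide +kernel
def sc4_21 : stCov (nat_lit 0) (nat_lit 2) (Rl.cons (nat_lit 2) (nat_lit 4) Rl.nil) C4_21 = true := by decide +kernel
def wf4_22 : wfC (nat_lit 29) (nat_lit 7) C4_22 = true := by decide +kernel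
def rf4_22 : rfCk (nat_lit 59) (nat_lit 9) (nat_lit 29) (nat_lit 7) (nat_lit 9) (nat_lit 0) (nat_lit 22) TL4 CL3 CL4 = true := by decide +kernel
def st4_22_0 : starCk (nat_lit 29) (nat_lit 7) (nat_lit 1) (nat_lit 3) (nat_lit 3) (nat_lit 6) (nat_lit 1) C4_22 = true := by decide +kernel
def sc4_22 : stCov (nat_lit 0) (nat_lit 6) (Rl.cons (nat_lit 6) (nat_lit 3) Rl.nil) C4_22 = true := by decide +kernel
def wf4_24 : wfC (nat_lit 29) (nat_lit 7) C4_24 = true := by decide +kernel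
def rf4_24 : rfCk (nat_lit 59) (nat_lit 9) (nat_lit 29) (nat_lit 7) (nat_lit 9) (nat_lit 0) (nat_lit 24) TL4 CL3 CL4 = true := by decide +kernel
def st4_24_0 : starCk (nat_lit 29) (nat_lit 7) (nat_lit 1) (nat_lit 3) (nat_lit 5) (nat_lit 17) (nat_lit 16) C4_24 = true := by decide +kernel
def sc4_24 : stCov (nat_lit 1) (nat_lit 17) (Rl.cons (nat_lit 17) (nat_lit 5) Rl.nil) C4_24 = true := by decide +kernel
def wf4_25 : wfC (nat_lit 29) (nat_lit 7) C4_25 = true := by decide +kernel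
def rf4_25 : rfCk (nat_lit 59) (nat_lit 9) (nat_lit 29) (nat_lit 7) (nat_lit 9) (nat_lit 0) (nat_lit 25) TL4 CL3 CL4 = true := by decide +kernel
def st4_25_0 : starCk (nat_lit 29) (nat_lit 7) (nat_lit 1) (nat_lit 3) (nat_lit 9) (nat_lit 14) (nat_lit 4096) C4_25 = true := by decide +kernel
def sc4_25 : stCov (nat_lit 3) (nat_lit 14) (Rl.cons (nat_lit 14) (nat_lit 9) Rl.nil) C4_25 = true := by decide +kernel
def ti4_0 : tileCk (nat_lit 29) (nat_lit 7) (nat_lit 2) (nat_lit 3) (nat_lit 50) (nat_lit 13) (nat_lit 26) ZL4_0 CL4 = true := by decide +kernel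
def zl4_0 : zlOK (nat_lit 50) ZL4_0 = true := by decide +kernel
def ti4_1 : tileCk (nat_lit 29) (nat_lit 7) (nat_lit 2) (nat_lit 3) (nat_lit 36) (nat_lit 13) (nat_lit 26) ZL4_1 CL4 = true := by decide +kernel
def zl4_1 : zlOK (nat_lit 36) ZL4_1 = true := by decide +kernel
def tc4_0 : tiCov (nat_lit 1) (nat_lit 0) ZZ4 C4_0 = true := by decide +kernel
def tc4_2 : tiCov (nat_lit 1) (nat_lit 2) ZZ4 C4_2 = true := by decide +kernel
def tc4_4 : tiCov (nat_lit 1) (nat_lit 4) ZZ4 C4_4 = true := by decide +kernel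
def tc4_5 : tiCov (nat_lit 1) (nat_lit 5) ZZ4 C4_5 = true := by decide +kernel
def tc4_6 : tiCov (nat_lit 1) (nat_lit 6) ZZ4 C4_6 = true := by decide +kernel
def tc4_8 : tiCov (nat_lit 1) (nat_lit 8) ZZ4 C4_8 = true := by decide +kernel
def tc4_9 : tiCov (nat_lit 1) (nat_lit 9) ZZ4 C4_9 = true := by decide +kernel
def tc4_10 : tiCov (nat_lit 1) (nat_lit 10) ZZ4 C4_10 = true := by decide +kernel
def tc4_12 : tiCov (nat_lit 1) (nat_lit 12) ZZ4 C4_12 = true := by decide +kernel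
def tc4_13 : tiCov (nat_lit 1) (nat_lit 13) ZZ4 C4_13 = true := by decide +kernel
def tc4_15 : tiCov (nat_lit 1) (nat_lit 15) ZZ4 C4_15 = true := by decide +kernel
def tc4_19 : tiCov (nat_lit 1) (nat_lit 19) ZZ4 C4_19 = true := by decide +kernel
def tc4_20 : tiCov (nat_lit 1) (nat_lit 20) ZZ4 C4_20 = true := by decide +kernel
def tc4_21 : tiCov (nat_lit 1) (nat_lit 21) ZZ4 C4_21 = true := by decide +kernel
def tc4_22 : tiCov (nat_lit 1) (nat_lit 22) ZZ4 C4_22 = true := by decide +kernel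
def tc4_24 : tiCov (nat_lit 1) (nat_lit 24) ZZ4 C4_24 = true := by decide +kernel
def tc4_25 : tiCov (nat_lit 1) (nat_lit 25) ZZ4 C4_25 = true := by decide +kernel
def de4_0 : deadCk (nat_lit 29) (nat_lit 7) C4_0 = true := by decide +kernel
def de4_2 : deadCk (nat_lit 29) (nat_lit 7) C4_2 = true := by decide +kernel
def de4_4 : deadCk (nat_lit 29) (nat_lit 7) C4_4 = true := by decide +kernel
def de4_5 : deadCk (nat_lit 29) (nat_lit 7) C4_5 = true := by decide +kernel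
def de4_6 : deadCk (nat_lit 29) (nat_lit 7) C4_6 = true := by decide +kernel
def de4_8 : deadCk (nat_lit 29) (nat_lit 7) C4_8 = true := by decide +kernel
def de4_9 : deadCk (nat_lit 29) (nat_lit 7) C4_9 = true := by decide +kernel
def de4_10 : deadCk (nat_lit 29) (nat_lit 7) C4_10 = true := by decide +kernel
def de4_12 : deadCk (nat_lit 29) (nat_lit 7) C4_12 = true := by decide +kernel
def de4_13 : deadCk (nat_lit 29) (nat_lit 7) C4_13 = true := by decide +kernel
def de4_15 : deadCk (nat_lit 29) (nat_lit 7) C4_15 = true := by decide +kernel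
def de4_19 : deadCk (nat_lit 29) (nat_lit 7) C4_19 = true := by decide +kernel
def de4_20 : deadCk (nat_lit 29) (nat_lit 7) C4_20 = true := by decide +kernel
def de4_21 : deadCk (nat_lit 29) (nat_lit 7) C4_21 = true := by decide +kernel
def de4_22 : deadCk (nat_lit 29) (nat_lit 7) C4_22 = true := by decide +kernel
def de4_24 : deadCk (nat_lit 29) (nat_lit 7) C4_24 = true := by decide +kernel
def de4_25 : deadCk (nat_lit 29) (nat_lit 7) C4_25 = true := by decide +kernel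
def wf1_18 : wfC (nat_lit 61) (nat_lit 3) C1_18 = true := by decide +kernel
def rf1_18 : rfCk (nat_lit 61) (nat_lit 5) (nat_lit 61) (nat_lit 3) (nat_lit 5) (nat_lit 262144) (nat_lit 18) TL1 CL0 CL1 = true := by decide +kernel
def sc1_18 : stCov (nat_lit 0) (nat_lit 0) Rl.nil C1_18 = true := by decide +kernel
def tc1_18 : tiCov (nat_lit 1) (nat_lit 18) ZZ1 C1_18 = true := by decide +kernel
def wf2_18 : wfC (nat_lit 60) (nat_lit 7) C2_18 = true := by decide +kernel
def rf2_18 : rfCk (nat_lit 61) (nat_lit 3) (nat_lit 60) (nat_lit 7) (nat_lit 9) (nat_lit 0) (nat_lit 18) TL2 CL1 CL2 = true := by decide +kernel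
def sc2_18 : stCov (nat_lit 0) (nat_lit 0) Rl.nil C2_18 = true := by decide +kernel
def tc2_18 : tiCov (nat_lit 1) (nat_lit 18) ZZ2 C2_18 = true := by decide +kernel
def wf3_17 : wfC (nat_lit 59) (nat_lit 9) C3_17 = true := by decide +kernel
def wf3_18 : wfC (nat_lit 59) (nat_lit 9) C3_18 = true := by decide +kernel
def rf3_17 : rfCk (nat_lit 60) (nat_lit 7) (nat_lit 59) (nat_lit 9) (nat_lit 9) (nat_lit 0) (nat_lit 17) TL3 CL2 CL3 = true := by decide +kernel
def rf3_18 : rfCk (nat_lit 60) (nat_lit 7) (nat_lit 59) (nat_lit 9) (nat_lit 9) (nat_lit 0) (nat_lit 18) TL3 CL2 CL3 = true := by decide +kernel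
def sc3_17 : stCov (nat_lit 0) (nat_lit 0) Rl.nil C3_17 = true := by decide +kernel
def sc3_18 : stCov (nat_lit 0) (nat_lit 0) Rl.nil C3_18 = true := by decide +kernel
def tc3_17 : tiCov (nat_lit 1) (nat_lit 17) ZZ3 C3_17 = true := by decide +kernel
def tc3_18 : tiCov (nat_lit 1) (nat_lit 18) ZZ3 C3_18 = true := by decide +kernel
def wf4_1 : wfC (nat_lit 29) (nat_lit 7) C4_1 = true := by decide +kernel
def wf4_3 : wfC (nat_lit 29) (nat_lit 7) C4_3 = true := by decide +kernel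
def wf4_7 : wfC (nat_lit 29) (nat_lit 7) C4_7 = true := by decide +kernel
def wf4_11 : wfC (nat_lit 29) (nat_lit 7) C4_11 = true := by decide +kernel
def wf4_14 : wfC (nat_lit 29) (nat_lit 7) C4_14 = true := by decide +kernel
def wf4_16 : wfC (nat_lit 29) (nat_lit 7) C4_16 = true := by decide +kernel
def wf4_17 : wfC (nat_lit 29) (nat_lit 7) C4_17 = true := by decide +kernel
def wf4_18 : wfC (nat_lit 29) (nat_lit 7) C4_18 = true := by decide +kernel
def wf4_23 : wfC (nat_lit 29) (nat_lit 7) C4_23 = true := by decide +kernel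
def rf4_1 : rfCk (nat_lit 59) (nat_lit 9) (nat_lit 29) (nat_lit 7) (nat_lit 9) (nat_lit 0) (nat_lit 1) TL4 CL3 CL4 = true := by decide +kernel
def rf4_3 : rfCk (nat_lit 59) (nat_lit 9) (nat_lit 29) (nat_lit 7) (nat_lit 9) (nat_lit 0) (nat_lit 3) TL4 CL3 CL4 = true := by decide +kernel
def rf4_7 : rfCk (nat_lit 59) (nat_lit 9) (nat_lit 29) (nat_lit 7) (nat_lit 9) (nat_lit 0) (nat_lit 7) TL4 CL3 CL4 = true := by decide +kernel
def rf4_11 : rfCk (nat_lit 59) (nat_lit 9) (nat_lit 29) (nat_lit 7) (nat_lit 9) (nat_lit 0) (nat_lit 11) TL4 CL3 CL4 = true := by decide +kernel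
def rf4_14 : rfCk (nat_lit 59) (nat_lit 9) (nat_lit 29) (nat_lit 7) (nat_lit 9) (nat_lit 0) (nat_lit 14) TL4 CL3 CL4 = true := by decide +kernel
def rf4_16 : rfCk (nat_lit 59) (nat_lit 9) (nat_lit 29) (nat_lit 7) (nat_lit 9) (nat_lit 0) (nat_lit 16) TL4 CL3 CL4 = true := by decide +kernel
def rf4_17 : rfCk (nat_lit 59) (nat_lit 9) (nat_lit 29) (nat_lit 7) (nat_lit 9) (nat_lit 0) (nat_lit 17) TL4 CL3 CL4 = true := by decide +kernel
def rf4_18 : rfCk (nat_lit 59) (nat_lit 9) (nat_lit 29) (nat_lit 7) (nat_lit 9) (nat_lit 0) (nat_lit 18) TL4 CL3 CL4 = true := by decide +kernel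
def rf4_23 : rfCk (nat_lit 59) (nat_lit 9) (nat_lit 29) (nat_lit 7) (nat_lit 9) (nat_lit 0) (nat_lit 23) TL4 CL3 CL4 = true := by decide +kernel
def sc4_1 : stCov (nat_lit 1) (nat_lit 0) Rl.nil C4_1 = true := by decide +kernel
def sc4_3 : stCov (nat_lit 0) (nat_lit 0) Rl.nil C4_3 = true := by decide +kernel
def sc4_7 : stCov (nat_lit 0) (nat_lit 0) Rl.nil C4_7 = true := by decide +kernel
def sc4_11 : stCov (nat_lit 0) (nat_lit 0) Rl.nil C4_11 = true := by decide +kernel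
def sc4_14 : stCov (nat_lit 0) (nat_lit 0) Rl.nil C4_14 = true := by decide +kernel
def sc4_16 : stCov (nat_lit 0) (nat_lit 0) Rl.nil C4_16 = true := by decide +kernel
def sc4_17 : stCov (nat_lit 0) (nat_lit 0) Rl.nil C4_17 = true := by decide +kernel
def sc4_18 : stCov (nat_lit 0) (nat_lit 0) Rl.nil C4_18 = true := by decide +kernel
def sc4_23 : stCov (nat_lit 0) (nat_lit 0) Rl.nil C4_23 = true := by decide +kernel
def tc4_1 : tiCov (nat_lit 1) (nat_lit 1) ZZ4 C4_1 = true := by decide +kernel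
def tc4_3 : tiCov (nat_lit 1) (nat_lit 3) ZZ4 C4_3 = true := by decide +kernel
def tc4_7 : tiCov (nat_lit 1) (nat_lit 7) ZZ4 C4_7 = true := by decide +kernel
def tc4_11 : tiCov (nat_lit 1) (nat_lit 11) ZZ4 C4_11 = true := by decide +kernel
def tc4_14 : tiCov (nat_lit 1) (nat_lit 14) ZZ4 C4_14 = true := by decide +kernel
def tc4_16 : tiCov (nat_lit 1) (nat_lit 16) ZZ4 C4_16 = true := by decide +kernel
def tc4_17 : tiCov (nat_lit 1) (nat_lit 17) ZZ4 C4_17 = true := by decide +kernel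
def tc4_18 : tiCov (nat_lit 1) (nat_lit 18) ZZ4 C4_18 = true := by decide +kernel
def tc4_23 : tiCov (nat_lit 1) (nat_lit 23) ZZ4 C4_23 = true := by decide +kernel
def de4_1 : deadCk (nat_lit 29) (nat_lit 7) C4_1 = true := by decide +kernel
def de4_3 : deadCk (nat_lit 29) (nat_lit 7) C4_3 = true := by decide +kernel
def de4_7 : deadCk (nat_lit 29) (nat_lit 7) C4_7 = true := by decide +kernel
def de4_11 : deadCk (nat_lit 29) (nat_lit 7) C4_11 = true := by decide +kernel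
def de4_14 : deadCk (nat_lit 29) (nat_lit 7) C4_14 = true := by decide +kernel
def de4_16 : deadCk (nat_lit 29) (nat_lit 7) C4_16 = true := by decide +kernel
def de4_17 : deadCk (nat_lit 29) (nat_lit 7) C4_17 = true := by decide +kernel
def de4_18 : deadCk (nat_lit 29) (nat_lit 7) C4_18 = true := by decide +kernel
def de4_23 : deadCk (nat_lit 29) (nat_lit 7) C4_23 = true := by decide +kernel

end Pool.Agent.NNr.R13_1_2_3
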