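import Pool.Agent.NNr.R13_1_2_3.D2
import Pool.Agent.NNr.R13_1_2_3.D3

set_option linter.all false
set_option maxRecDepth 1000000
namespace Pool.Agent.NNr.R13_1_2_3

open Pool.Agent.NNe

def ti2_1 : tileCk (nat_lit 60) (nat_lit 7) (nat_lit 2) (nat_lit 3) (nat_lit 301) (nat_lit 13) (nat_lit 26) ZL2_1 CL2 = true := by decide +kernel
def zl2_1 : zlOK (nat_lit 301) ZL2_1 = true := by decide +kernel
def ti2_2 : tileCk (nat_lit 60) (nat_lit 7) (nat_lit 2) (nat_lit 3) (nat_lit 430) (nat_lit 13) (nat_lit 26) ZL2_2 CL2 = true := by decide +kernel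
def zl2_2 : zlOK (nat_lit 430) ZL2_2 = true := by decide +kernel
def tc2_0 : tiCov (nat_lit 1) (nat_lit 0) ZZ2 C2_0 = true := by decide +kernel
def tc2_1 : tiCov (nat_lit 1) (nat_lit 1) ZZ2 C2_1 = true := by decide +kernel
def tc2_2 : tiCov (nat_lit 1) (nat_lit 2) ZZ2 C2_2 = true := by decide +kernel
def tc2_3 : tiCov (nat_lit 1) (nat_lit 3) ZZ2 C2_3 = true := by decide +kernel
def tc2_4 : tiCov (nat_lit 1) (nat_lit 4) ZZ2 C2_4 = true := by decide +kernel
def tc2_5 : tiCov (nat_lit 1) (nat_lit 5) ZZ2 C2_5 = true := by decide +kernel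
def tc2_6 : tiCov (nat_lit 1) (nat_lit 6) ZZ2 C2_6 = true := by decide +kernel
def tc2_7 : tiCov (nat_lit 1) (nat_lit 7) ZZ2 C2_7 = true := by decide +kernel
def tc2_8 : tiCov (nat_lit 1) (nat_lit 8) ZZ2 C2_8 = true := by decide +kernel
def tc2_9 : tiCov (nat_lit 1) (nat_lit 9) ZZ2 C2_9 = true := by decide +kernel
def tc2_10 : tiCov (nat_lit 1) (nat_lit 10) ZZ2 C2_10 = true := by decide +kernel
def tc2_11 : tiCov (nat_lit 1) (nat_lit 11) ZZ2 C2_11 = true := by decide +kernel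
def tc2_12 : tiCov (nat_lit 1) (nat_lit 12) ZZ2 C2_12 = true := by decide +kernel
def tc2_13 : tiCov (nat_lit 1) (nat_lit 13) ZZ2 C2_13 = true := by decide +kernel
def tc2_14 : tiCov (nat_lit 1) (nat_lit 14) ZZ2 C2_14 = true := by decide +kernel
def tc2_15 : tiCov (nat_lit 1) (nat_lit 15) ZZ2 C2_15 = true := by decide +kernel
def tc2_16 : tiCov (nat_lit 1) (nat_lit 16) ZZ2 C2_16 = true := by decide +kernel
def tc2_17 : tiCov (nat_lit 1) (nat_lit 17) ZZ2 C2_17 = true := by decide +kernel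
def tc2_19 : tiCov (nat_lit 1) (nat_lit 19) ZZ2 C2_19 = true := by decide +kernel
def tc2_20 : tiCov (nat_lit 1) (nat_lit 20) ZZ2 C2_20 = true := by decide +kernel
def tc2_21 : tiCov (nat_lit 1) (nat_lit 21) ZZ2 C2_21 = true := by decide +kernel
def tc2_22 : tiCov (nat_lit 1) (nat_lit 22) ZZ2 C2_22 = true := by decide +kernel
def tc2_23 : tiCov (nat_lit 1) (nat_lit 23) ZZ2 C2_23 = true := by decide +kernel
def tc2_24 : tiCov (nat_lit 1) (nat_lit 24) ZZ2 C2_24 = true := by decide +kernel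
def tc2_25 : tiCov (nat_lit 1) (nat_lit 25) ZZ2 C2_25 = true := by decide +kernel
def wf3_0 : wfC (nat_lit 59) (nat_lit 9) C3_0 = true := by decide +kernel
def rf3_0 : rfCk (nat_lit 60) (nat_lit 7) (nat_lit 59) (nat_lit 9) (nat_lit 9) (nat_lit 0) (nat_lit 0) TL3 CL2 CL3 = true := by decide +kernel
def st3_0_0 : starCk (nat_lit 59) (nat_lit 9) (nat_lit 1) (nat_lit 4) (nat_lit 15) (nat_lit 0) (nat_lit 256) C3_0 = true := by decide +kernel
def sc3_0 : stCov (nat_lit 2) (nat_lit 0) (Rl.cons (nat_lit 0) (nat_lit 15) Rl.nil) C3_0 = true := by decide +kernel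
def wf3_1 : wfC (nat_lit 59) (nat_lit 9) C3_1 = true := by decide +kernel
def rf3_1 : rfCk (nat_lit 60) (nat_lit 7) (nat_lit 59) (nat_lit 9) (nat_lit 9) (nat_lit 0) (nat_lit 1) TL3 CL2 CL3 = true := by decide +kernel
def st3_1_0 : starCk (nat_lit 59) (nat_lit 9) (nat_lit 1) (nat_lit 4) (nat_lit 15) (nat_lit 46) (nat_lit 256) C3_1 = true := by decide +kernel
def sc3_1 : stCov (nat_lit 2) (nat_lit 46) (Rl.cons (nat_lit 46) (nat_lit 15) Rl.nil) C3_1 = true := by decide +kernel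
def wf3_2 : wfC (nat_lit 59) (nat_lit 9) C3_2 = true := by decide +kernel
def rf3_2 : rfCk (nat_lit 60) (nat_lit 7) (nat_lit 59) (nat_lit 9) (nat_lit 9) (nat_lit 0) (nat_lit 2) TL3 CL2 CL3 = true := by decide +kernel
def st3_2_0 : starCk (nat_lit 59) (nat_lit 9) (nat_lit 1) (nat_lit 4) (nat_lit 23) (nat_lit 0) (nat_lit 16) C3_2 = true := by decide +kernel
def sc3_2 : stCov (nat_lit 1) (nat_lit 0) (Rl.cons (nat_lit 0) (nat_lit 23) Rl.nil) C3_2 = true := by decide +kernel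
def wf3_3 : wfC (nat_lit 59) (nat_lit 9) C3_3 = true := by decide +kernel
def rf3_3 : rfCk (nat_lit 60) (nat_lit 7) (nat_lit 59) (nat_lit 9) (nat_lit 9) (nat_lit 0) (nat_lit 3) TL3 CL2 CL3 = true := by decide +kernel
def st3_3_0 : starCk (nat_lit 59) (nat_lit 9) (nat_lit 1) (nat_lit 4) (nat_lit 13) (nat_lit 19) (nat_lit 1) C3_3 = true := by decide +kernel
def sc3_3 : stCov (nat_lit 0) (nat_lit 19) (Rl.cons (nat_lit 19) (nat_lit 13) Rl.nil) C3_3 = true := by decide +kernel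
def wf3_4 : wfC (nat_lit 59) (nat_lit 9) C3_4 = true := by decide +kernel
def rf3_4 : rfCk (nat_lit 60) (nat_lit 7) (nat_lit 59) (nat_lit 9) (nat_lit 9) (nat_lit 0) (nat_lit 4) TL3 CL2 CL3 = true := by decide +kernel
def st3_4_0 : starCk (nat_lit 59) (nat_lit 9) (nat_lit 1) (nat_lit 4) (nat_lit 11) (nat_lit 112) (nat_lit 256) C3_4 = true := by decide +kernel
def sc3_4 : stCov (nat_lit 2) (nat_lit 112) (Rl.cons (nat_lit 112) (nat_lit 11) Rl.nil) C3_4 = true := by decide +kernel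
def wf3_5 : wfC (nat_lit 59) (nat_lit 9) C3_5 = true := by decide +kernel
def rf3_5 : rfCk (nat_lit 60) (nat_lit 7) (nat_lit 59) (nat_lit 9) (nat_lit 9) (nat_lit 0) (nat_lit 5) TL3 CL2 CL3 = true := by decide +kernel
def st3_5_0 : starCk (nat_lit 59) (nat_lit 9) (nat_lit 1) (nat_lit 4) (nat_lit 28) (nat_lit 49) (nat_lit 1) C3_5 = true := by decide +kernel
def sc3_5 : stCov (nat_lit 0) (nat_lit 49) (Rl.cons (nat_lit 49) (nat_lit 28) Rl.nil) C3_5 = true := by decide +kernel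
def wf3_6 : wfC (nat_lit 59) (nat_lit 9) C3_6 = true := by decide +kernel
def rf3_6 : rfCk (nat_lit 60) (nat_lit 7) (nat_lit 59) (nat_lit 9) (nat_lit 9) (nat_lit 0) (nat_lit 6) TL3 CL2 CL3 = true := by decide +kernel
def st3_6_0 : starCk (nat_lit 59) (nat_lit 9) (nat_lit 1) (nat_lit 4) (nat_lit 14) (nat_lit 25) (nat_lit 1) C3_6 = true := by decide +kernel
def sc3_6 : stCov (nat_lit 0) (nat_lit 25) (Rl.cons (nat_lit 25) (nat_lit 14) Rl.nil) C3_6 = true := by decide +kernel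
def wf3_7 : wfC (nat_lit 59) (nat_lit 9) C3_7 = true := by decide +kernel
def rf3_7 : rfCk (nat_lit 60) (nat_lit 7) (nat_lit 59) (nat_lit 9) (nat_lit 9) (nat_lit 0) (nat_lit 7) TL3 CL2 CL3 = true := by decide +kernel
def st3_7_0 : starCk (nat_lit 59) (nat_lit 9) (nat_lit 1) (nat_lit 4) (nat_lit 15) (nat_lit 12) (nat_lit 1) C3_7 = true := by decide +kernel
def sc3_7 : stCov (nat_lit 0) (nat_lit 12) (Rl.cons (nat_lit 12) (nat_lit 15) Rl.nil) C3_7 = true := by decide +kernel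
def wf3_8 : wfC (nat_lit 59) (nat_lit 9) C3_8 = true := by decide +kernel
def rf3_8 : rfCk (nat_lit 60) (nat_lit 7) (nat_lit 59) (nat_lit 9) (nat_lit 9) (nat_lit 0) (nat_lit 8) TL3 CL2 CL3 = true := by decide +kernel
def st3_8_0 : starCk (nat_lit 59) (nat_lit 9) (nat_lit 1) (nat_lit 4) (nat_lit 19) (nat_lit 177) (nat_lit 256) C3_8 = true := by decide +kernel
def sc3_8 : stCov (nat_lit 2) (nat_lit 177) (Rl.cons (nat_lit 177) (nat_lit 19) Rl.nil) C3_8 = true := by decide +kernel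
def wf3_9 : wfC (nat_lit 59) (nat_lit 9) C3_9 = true := by decide +kernel
def rf3_9 : rfCk (nat_lit 60) (nat_lit 7) (nat_lit 59) (nat_lit 9) (nat_lit 9) (nat_lit 0) (nat_lit 9) TL3 CL2 CL3 = true := by decide +kernel
def st3_9_0 : starCk (nat_lit 59) (nat_lit 9) (nat_lit 1) (nat_lit 4) (nat_lit 29) (nat_lit 85) (nat_lit 16) C3_9 = true := by decide +kernel
def sc3_9 : stCov (nat_lit 1) (nat_lit 85) (Rl.cons (nat_lit 85) (nat_lit 29) Rl.nil) C3_9 = true := by decide +kernel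
def wf3_10 : wfC (nat_lit 59) (nat_lit 9) C3_10 = true := by decide +kernel
def rf3_10 : rfCk (nat_lit 60) (nat_lit 7) (nat_lit 59) (nat_lit 9) (nat_lit 9) (nat_lit 0) (nat_lit 10) TL3 CL2 CL3 = true := by decide +kernel
def st3_10_0 : starCk (nat_lit 59) (nat_lit 9) (nat_lit 1) (nat_lit 4) (nat_lit 17) (nat_lit 42) (nat_lit 1) C3_10 = true := by decide +kernel
def sc3_10 : stCov (nat_lit 0) (nat_lit 42) (Rl.cons (nat_lit 42) (nat_lit 17) Rl.nil) C3_10 = true := by decide +kernel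
def wf3_11 : wfC (nat_lit 59) (nat_lit 9) C3_11 = true := by decide +kernel
def rf3_11 : rfCk (nat_lit 60) (nat_lit 7) (nat_lit 59) (nat_lit 9) (nat_lit 9) (nat_lit 0) (nat_lit 11) TL3 CL2 CL3 = true := by decide +kernel
def st3_11_0 : starCk (nat_lit 59) (nat_lit 9) (nat_lit 1) (nat_lit 4) (nat_lit 15) (nat_lit 161) (nat_lit 256) C3_11 = true := by decide +kernel
def sc3_11 : stCov (nat_lit 2) (nat_lit 161) (Rl.cons (nat_lit 161) (nat_lit 15) Rl.nil) C3_11 = true := by decide +kernel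
def wf3_12 : wfC (nat_lit 59) (nat_lit 9) C3_12 = true := by decide +kernel
def rf3_12 : rfCk (nat_lit 60) (nat_lit 7) (nat_lit 59) (nat_lit 9) (nat_lit 9) (nat_lit 0) (nat_lit 12) TL3 CL2 CL3 = true := by decide +kernel
def st3_12_0 : starCk (nat_lit 59) (nat_lit 9) (nat_lit 1) (nat_lit 4) (nat_lit 16) (nat_lit 53) (nat_lit 256) C3_12 = true := by decide +kernel
def sc3_12 : stCov (nat_lit 2) (nat_lit 53) (Rl.cons (nat_lit 53) (nat_lit 16) Rl.nil) C3_12 = true := by decide +kernel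
def wf3_13 : wfC (nat_lit 59) (nat_lit 9) C3_13 = true := by decide +kernel
def rf3_13 : rfCk (nat_lit 60) (nat_lit 7) (nat_lit 59) (nat_lit 9) (nat_lit 9) (nat_lit 0) (nat_lit 13) TL3 CL2 CL3 = true := by decide +kernel
def st3_13_0 : starCk (nat_lit 59) (nat_lit 9) (nat_lit 1) (nat_lit 4) (nat_lit 18) (nat_lit 45) (nat_lit 1) C3_13 = true := by decide +kernel
def sc3_13 : stCov (nat_lit 0) (nat_lit 45) (Rl.cons (nat_lit 45) (nat_lit 18) Rl.nil) C3_13 = true := by decide +kernel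
def wf3_14 : wfC (nat_lit 59) (nat_lit 9) C3_14 = true := by decide +kernel
def rf3_14 : rfCk (nat_lit 60) (nat_lit 7) (nat_lit 59) (nat_lit 9) (nat_lit 9) (nat_lit 0) (nat_lit 14) TL3 CL2 CL3 = true := by decide +kernel
def st3_14_0 : starCk (nat_lit 59) (nat_lit 9) (nat_lit 1) (nat_lit 4) (nat_lit 8) (nat_lit 107) (nat_lit 256) C3_14 = true := by decide +kernel
def sc3_14 : stCov (nat_lit 2) (nat_lit 107) (Rl.cons (nat_lit 107) (nat_lit 8) Rl.nil) C3_14 = true := by decide +kernel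
def wf3_15 : wfC (nat_lit 59) (nat_lit 9) C3_15 = true := by decide +kernel
def rf3_15 : rfCk (nat_lit 60) (nat_lit 7) (nat_lit 59) (nat_lit 9) (nat_lit 9) (nat_lit 0) (nat_lit 15) TL3 CL2 CL3 = true := by decide +kernel
def st3_15_0 : starCk (nat_lit 59) (nat_lit 9) (nat_lit 1) (nat_lit 4) (nat_lit 19) (nat_lit 47) (nat_lit 16) C3_15 = true := by decide +kernel
def sc3_15 : stCov (nat_lit 1) (nat_lit 47) (Rl.cons (nat_lit 47) (nat_lit 19) Rl.nil) C3_15 = true := by decide +kernel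
def wf3_16 : wfC (nat_lit 59) (nat_lit 9) C3_16 = true := by decide +kernel
def rf3_16 : rfCk (nat_lit 60) (nat_lit 7) (nat_lit 59) (nat_lit 9) (nat_lit 9) (nat_lit 0) (nat_lit 16) TL3 CL2 CL3 = true := by decide +kernel
def sc3_16 : stCov (nat_lit 2) (nat_lit 0) Rl.nil C3_16 = true := by decide +kernel
def wf3_19 : wfC (nat_lit 59) (nat_lit 9) C3_19 = true := by decide +kernel
def rf3_19 : rfCk (nat_lit 60) (nat_lit 7) (nat_lit 59) (nat_lit 9) (nat_lit 9) (nat_lit 0) (nat_lit 19) TL3 CL2 CL3 = true := by decide +kernel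
def st3_19_0 : starCk (nat_lit 59) (nat_lit 9) (nat_lit 1) (nat_lit 4) (nat_lit 151) (nat_lit 185) (nat_lit 4096) C3_19 = true := by decide +kernel
def sc3_19 : stCov (nat_lit 3) (nat_lit 185) (Rl.cons (nat_lit 185) (nat_lit 151) Rl.nil) C3_19 = true := by decide +kernel
def wf3_20 : wfC (nat_lit 59) (nat_lit 9) C3_20 = true := by decide +kernel
def rf3_20 : rfCk (nat_lit 60) (nat_lit 7) (nat_lit 59) (nat_lit 9) (nat_lit 9) (nat_lit 0) (nat_lit 20) TL3 CL2 CL3 = true := by decide +kernel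

end Pool.Agent.NNr.R13_1_2_3
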